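import Mathlib

namespace Pool.Agent.Results.MP_325f40_co.Counter

/-- The 2-distance graph: same vertices, `u ~ v` iff the (extended) graph distance is `2`. -/
def dist2 {V : Type} (G : SimpleGraph V) : SimpleGraph V where
  Adj u v := G.edist u v = 2
  symm := ⟨fun u v h => by rw [SimpleGraph.edist_comm]; exact h⟩
  loopless := ⟨fun u h => by rw [SimpleGraph.edist_self] at h; exact absurd h (by decide)⟩

lemma edist_two {V : Type} (G : SimpleGraph V) (u v : V) :
    G.edist u v = 2 ↔ u ≠ v ∧ ¬ G.Adj u v ∧ ∃ w, G.Adj u w ∧ G.Adj w v := by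
  constructor
  · intro h
    refine ⟨?_, ?_, ?_⟩
    · rintro rfl
      rw [SimpleGraph.edist_self] at h; exact absurd h (by decide)
    · intro ha
      rw [SimpleGraph.edist_eq_one_iff_adj.2 ha] at h; exact absurd h (by decide)
    · obtain ⟨p, hp⟩ := SimpleGraph.exists_walk_of_edist_eq_coe (k := 2) h
      cases p with
      | nil => simp at hp
      | cons h1 p =>
        cases p with
        | nil => simp at hp
        | cons h2 p =>
          cases p with
          | nil => exact ⟨_, h1, h2⟩
          | cons h3 p => simp at hp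
  · rintro ⟨h1, h2, w, h3, h4⟩
    have hle : G.edist u v ≤ 2 := by
      have := SimpleGraph.edist_le (SimpleGraph.Walk.cons h3 (SimpleGraph.Walk.cons h4 SimpleGraph.Walk.nil))
      simpa using this
    have h0 : G.edist u v ≠ 0 := fun h => h1 (SimpleGraph.edist_eq_zero_iff.1 h)
    have h1' : G.edist u v ≠ 1 := fun h => h2 (SimpleGraph.edist_eq_one_iff_adj.1 h)
    generalize G.edist u v = d at *
    induction d with
    | top => simp at hle
    | coe n =>
      have a : n ≤ 2 := by exact_mod_cast hle
      have b : n ≠ 0 := by intro h; apply h0; simp [h]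
      have c : n ≠ 1 := by intro h; apply h1'; simp [h]
      have : n = 2 := by omega
      simp [this]

def edges : List (Nat × Nat) :=
  [(0, 4), (0, 7), (0, 8), (0, 9), (0, 11), (0, 14), (0, 15), (1, 2), (1, 3), (1, 4), (1, 6),
   (1, 11), (1, 13), (1, 14), (2, 6), (2, 9), (2, 10), (2, 11), (2, 12), (2, 13), (3, 4), (3, 5),
   (3, 6), (3, 8), (3, 12), (3, 15), (4, 8), (4, 11), (4, 14), (4, 15), (5, 6), (5, 7), (5, 8),
   (5, 10), (5, 13), (5, 14), (6, 10), (6, 12), (6, 13), (7, 8), (7, 9), (7, 10), (7, 12), (7, 15),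
   (8, 14), (8, 15), (9, 10), (9, 11), (9, 13), (9, 14), (10, 12), (10, 13), (11, 12), (11, 15),
   (12, 13), (14, 15)]

def adj (u v : Fin 16) : Bool := edges.contains (u.1, v.1) || edges.contains (v.1, u.1)

def G : SimpleGraph (Fin 16) where
  Adj u v := adj u v = true
  symm := ⟨fun u v h => by simp only [adj, Bool.or_eq_true] at *; exact h.symm⟩
  loopless := ⟨by decide +kernel⟩

instance : DecidableRel G.Adj := fun u v => inferInstanceAs (Decidable (adj u v = true))

def p : Fin 16 → Fin 16 := ![1, 2, 3, 4, 5, 6, 7, 8, 9, 10, 11, 0, 13, 14, 15, 12]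
def q : Fin 16 → Fin 16 := ![11, 0, 1, 2, 3, 4, 5, 6, 7, 8, 9, 10, 15, 12, 13, 14]

theorem result : ¬ ∀ (k : ℕ), Odd k → ∀ (V : Type) [Fintype V] [Nonempty V] (Γ : SimpleGraph V)
    [DecidableRel Γ.Adj], Γ.IsRegularOfDegree k → IsEmpty (dist2 Γ ≃g Γ) := by
  intro h
  have hreg : G.IsRegularOfDegree 7 := by
    unfold SimpleGraph.IsRegularOfDegree
    decide +kernel
  refine (h 7 (by decide) (Fin 16) G hreg).false
    ⟨⟨p, q, by unfold Function.LeftInverse; decide, by unfold Function.RightInverse Function.LeftInverse; decide⟩, ?_⟩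
  intro a b
  change G.Adj (p a) (p b) ↔ G.edist a b = 2
  rw [edist_two]
  revert a b
  decide +kernel

end Pool.Agent.Results.MP_325f40_co.Counter
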